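import Pool.Agent.W574.RO.V

/-!
# Project QT (helper57), job T: translations of functional equations, part 1 (helper149)
-/

set_option autoImplicit false
set_option linter.unusedSectionVars false

namespace Pool.Agent.Q149.QT

open MvPolynomial Pool.Agent.W574.SM Pool.Agent.W574.RO

section
variable {σ : Type}

/-- conjugation of an operator -/
noncomputable def cjE (e : MvPolynomial σ ℂ ≃ₐ[ℂ] MvPolynomial σ ℂ) :
    Module.End ℂ (MvPolynomial σ ℂ) →ₐ[ℂ] Module.End ℂ (MvPolynomial σ ℂ) where
  toFun Q := e.toLinearMap ∘ₗ Q ∘ₗ e.symm.toLinearMap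
  map_one' := by
    refine LinearMap.ext fun g => ?_
    show e (e.symm g) = g
    exact e.apply_symm_apply g
  map_mul' Q Q' := by
    refine LinearMap.ext fun g => ?_
    show e (Q (Q' (e.symm g))) = e (Q (e.symm (e (Q' (e.symm g)))))
    rw [e.symm_apply_apply]
  map_zero' := by
    refine LinearMap.ext fun g => ?_
    show e 0 = 0
    exact map_zero e
  map_add' Q Q' := by
    refine LinearMap.ext fun g => ?_
    show e (Q (e.symm g) + Q' (e.symm g)) = e (Q (e.symm g)) + e (Q' (e.symm g))
    exact map_add e _ _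
  commutes' a := by
    refine LinearMap.ext fun g => ?_
    show e (a • (e.symm g)) = a • g
    rw [map_smul, e.apply_symm_apply]

theorem cjE_apply (e : MvPolynomial σ ℂ ≃ₐ[ℂ] MvPolynomial σ ℂ)
    (Q : Module.End ℂ (MvPolynomial σ ℂ)) (g : MvPolynomial σ ℂ) :
    cjE e Q (e g) = e (Q g) := by
  show e (Q (e.symm (e g))) = e (Q g)
  rw [e.symm_apply_apply]

theorem cjE_mem (e : MvPolynomial σ ℂ ≃ₐ[ℂ] MvPolynomial σ ℂ)
    (he : ∀ i g, e (pderiv i g) = pderiv i (e g)) (Q : Module.End ℂ (MvPolynomial σ ℂ))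
    (hQ : Q ∈ weyl σ) : cjE e Q ∈ weyl σ := by
  have hle : weyl σ ≤ (weyl σ).comap (cjE e) := by
    unfold weyl
    rw [Algebra.adjoin_le_iff]
    rintro _ (⟨i, rfl⟩ | ⟨i, rfl⟩)
    · show cjE e (LinearMap.mulLeft ℂ (X i)) ∈ weyl σ
      have h : cjE e (LinearMap.mulLeft ℂ (X i)) = LinearMap.mulLeft ℂ (e (X i)) := by
        refine LinearMap.ext fun g => ?_
        show e (X i * e.symm g) = e (X i) * g
        rw [map_mul, e.apply_symm_apply]
      rw [h]
      exact mulLeft_memW _
    · show cjE e _ ∈ weyl σ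
      have h : cjE e (((pderiv i : Derivation ℂ (MvPolynomial σ ℂ)
          (MvPolynomial σ ℂ)) : MvPolynomial σ ℂ →ₗ[ℂ] MvPolynomial σ ℂ)) =
          ((pderiv i : Derivation ℂ (MvPolynomial σ ℂ)
          (MvPolynomial σ ℂ)) : MvPolynomial σ ℂ →ₗ[ℂ] MvPolynomial σ ℂ) := by
        refine LinearMap.ext fun g => ?_
        show e (pderiv i (e.symm g)) = pderiv i g
        rw [he, e.apply_symm_apply]
      rw [h]
      exact Algebra.subset_adjoin (Or.inr ⟨i, rfl⟩)
  exact hle hQ

variable {ι : Type} [Fintype ι]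

theorem e_gterm (e : MvPolynomial σ ℂ ≃ₐ[ℂ] MvPolynomial σ ℂ) (f : ι → MvPolynomial σ ℂ)
    (c : ι → ℤ) (s : ι → ℕ) : e (gterm f c s) = gterm (fun j => e (f j)) c s := by
  unfold gterm
  rw [map_mul, map_prod]
  congr 1
  · exact e.commutes _
  · exact Finset.prod_congr rfl fun j _ => map_pow e _ _

/-- conjugation of the coefficients -/
noncomputable def cjP (e : MvPolynomial σ ℂ ≃ₐ[ℂ] MvPolynomial σ ℂ)
    (he : ∀ i g, e (pderiv i g) = pderiv i (e g)) (P : (ι →₀ ℕ) →₀ weyl σ) :
    (ι →₀ ℕ) →₀ weyl σ :=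
  P.mapRange (fun Q => (⟨cjE e Q.1, cjE_mem e he Q.1 Q.2⟩ : weyl σ)) (by
    apply Subtype.ext
    show cjE e 0 = 0
    exact map_zero _)

theorem e_applyAt (e : MvPolynomial σ ℂ ≃ₐ[ℂ] MvPolynomial σ ℂ)
    (he : ∀ i g, e (pderiv i g) = pderiv i (e g)) (P : (ι →₀ ℕ) →₀ weyl σ) (s : ι → ℕ)
    (g : MvPolynomial σ ℂ) : e (applyAt P s g) = applyAt (cjP e he P) s (e g) := by
  classical
  unfold applyAt cjP
  rw [Finsupp.sum_mapRange_index (fun β => by simp), Finsupp.sum, Finsupp.sum, map_sum]
  refine Finset.sum_congr rfl fun β _ => ?_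
  rw [map_smul]
  congr 1
  exact (cjE_apply e _ g).symm

/-- the functions in `V` are mapped to functions in `V` -/
theorem e_V (e : MvPolynomial σ ℂ ≃ₐ[ℂ] MvPolynomial σ ℂ)
    (he : ∀ i g, e (pderiv i g) = pderiv i (e g)) (f : ι → MvPolynomial σ ℂ) (a : ℤ)
    (F : AF σ ι) (hF : F ∈ V f a) : (fun s => e (F s)) ∈ V (fun j => e (f j)) a := by
  unfold V at hF
  induction hF using Submodule.span_induction with
  | mem F h =>
    obtain ⟨P, c, hc, rfl⟩ := h
    have : (fun s => e (gen f P c s)) = gen (fun j => e (f j)) (cjP e he P) c := by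
      funext s
      rw [gen, gen, e_applyAt e he, e_gterm]
    rw [this]
    exact gen_mem _ _ _ hc
  | zero =>
    have : (fun s => e ((0 : AF σ ι) s)) = 0 := by
      funext s
      show e 0 = 0
      exact map_zero e
    rw [this]
    exact Submodule.zero_mem _
  | add F G _ _ hF hG =>
    have : (fun s => e ((F + G) s)) = (fun s => e (F s)) + fun s => e (G s) := by
      funext s
      show e (F s + G s) = e (F s) + e (G s)
      exact map_add e _ _
    rw [this]
    exact Submodule.add_mem _ hF hG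
  | smul r F _ hF =>
    have : (fun s => e ((r • F) s)) = r • fun s => e (F s) := by
      funext s
      show e (r • F s) = r • e (F s)
      exact map_smul e _ _
    rw [this]
    exact Submodule.smul_mem _ _ hF

/-- translations -/
noncomputable def tr (p : σ → ℂ) : MvPolynomial σ ℂ ≃ₐ[ℂ] MvPolynomial σ ℂ :=
  AlgEquiv.ofAlgHom (aeval fun i => X i + C (p i)) (aeval fun i => X i - C (p i))
    (by
      refine algHom_ext fun i => ?_
      simp [← algebraMap_eq])
    (by
      refine algHom_ext fun i => ?_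
      simp [← algebraMap_eq])

theorem tr_apply (p : σ → ℂ) (g : MvPolynomial σ ℂ) :
    tr p g = aeval (fun i => X i + C (p i)) g := rfl

theorem tr_pderiv (p : σ → ℂ) (i : σ) (g : MvPolynomial σ ℂ) :
    tr p (pderiv i g) = pderiv i (tr p g) := by
  classical
  induction g using MvPolynomial.induction_on with
  | C a =>
    rw [pderiv_C, map_zero]
    have : tr p (C a) = C a := (tr p).commutes a
    rw [this, pderiv_C]
  | add q r hq hr => rw [map_add, map_add, hq, hr, map_add, map_add]
  | mul_X q j hq =>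
    have hX : tr p (X j) = X j + C (p j) := by rw [tr_apply, aeval_X]
    have hm : tr p (q * X j) = tr p q * (X j + C (p j)) := by rw [map_mul, hX]
    have hs : tr p (pderiv i (X j)) = pderiv i (X j) := by
      rw [pderiv_X]
      by_cases h : i = j
      · subst h
        simp
      · rw [Pi.single_eq_of_ne (M := fun _ => MvPolynomial σ ℂ) (fun e => h e.symm), map_zero]
    rw [hm, Derivation.leibniz, Derivation.leibniz, map_add (tr p), smul_eq_mul, smul_eq_mul,
      smul_eq_mul, smul_eq_mul, map_mul (tr p), map_mul (tr p), hq, hX, map_add (pderiv i),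
      pderiv_C, add_zero, hs]

theorem tr_eval (p : σ → ℂ) (g : MvPolynomial σ ℂ) : eval 0 (tr p g) = eval p g := by
  rw [tr_apply]
  induction g using MvPolynomial.induction_on with
  | C a => simp [← algebraMap_eq]
  | add q r hq hr => rw [map_add, map_add, hq, hr, map_add]
  | mul_X q j hq => rw [map_mul, map_mul, hq, map_mul]; simp

end

end Pool.Agent.Q149.QT
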