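import Pool.Agent.Q149.QT.Tr0
import Pool.Agent.Y229.SP1

/-!
# Project QT (helper57), job T: translations of functional equations, part 2 (helper149)
-/

set_option autoImplicit false

namespace Pool.Agent.Q149.QT

open MvPolynomial Pool.Agent.W574.SM Pool.Agent.W574.RO
open Pool.Agent.Y229 (SF mulB)

section
variable {σ ι : Type} [Fintype ι] [DecidableEq ι]

theorem e_evalC (e : MvPolynomial σ ℂ ≃ₐ[ℂ] MvPolynomial σ ℂ)
    (B : Polynomial (MvPolynomial σ ℂ)) (a : ℂ) :
    (B.map (e : MvPolynomial σ ℂ →+* MvPolynomial σ ℂ)).eval (C a) = e (B.eval (C a)) := by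
  have h : (C a : MvPolynomial σ ℂ) = (e : MvPolynomial σ ℂ →+* MvPolynomial σ ℂ) (C a) :=
    (e.commutes a).symm
  conv_lhs => rw [h]
  rw [Polynomial.eval_map, Polynomial.eval₂_at_apply]
  rfl

theorem e_mulB (e : MvPolynomial σ ℂ ≃ₐ[ℂ] MvPolynomial σ ℂ) (f : ι → MvPolynomial σ ℂ)
    (B : Polynomial (MvPolynomial σ ℂ)) :
    (fun s => e (mulB B (G0 f) s)) =
      mulB (B.map (e : MvPolynomial σ ℂ →+* MvPolynomial σ ℂ)) (G0 fun j => e (f j)) := by
  funext s
  unfold mulB G0
  rw [e_evalC, map_mul, map_prod]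
  congr 1
  exact Finset.prod_congr rfl fun j _ => map_pow e _ _

/-- translations of functional equations -/
theorem sf_trans (f : ι → MvPolynomial σ ℂ) (p : σ → ℂ) (α : ℂ) :
    SF f p α ↔ SF (fun j => aeval (fun i => X i + C (p i)) (f j)) 0 α := by
  have hsy : ∀ i g, (tr p).symm (pderiv i g) = pderiv i ((tr p).symm g) := by
    intro i g
    apply (tr p).injective
    rw [(tr p).apply_symm_apply, tr_pderiv, (tr p).apply_symm_apply]
  constructor
  · intro h B hB
    have h1 := e_V (tr p).symm hsy _ 1 _ hB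
    rw [e_mulB] at h1
    have e1 : (fun j => (tr p).symm (aeval (fun i => X i + C (p i)) (f j))) = f := by
      funext j
      exact (tr p).symm_apply_apply (f j)
    rw [e1] at h1
    have h2 := h _ h1
    rw [e_evalC] at h2
    rw [← tr_eval, (tr p).apply_symm_apply] at h2
    exact h2
  · intro h B hB
    have h1 := e_V (tr p) (tr_pderiv p) _ 1 _ hB
    rw [e_mulB] at h1
    have h2 := h _ h1
    rw [e_evalC, tr_eval] at h2
    exact h2

end

end Pool.Agent.Q149.QT
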