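import Pool.Agent.Q149.QT.Tr1
import Pool.Agent.Q57.QT.Stm

/-!
# Project QT (helper57), job T: translations of functional equations (helper149)
-/

set_option autoImplicit false

namespace Pool.Agent.Q149.QT

theorem qt_trans : Pool.Agent.Q57.QT.StTrans := fun f p α => sf_trans f p α

end Pool.Agent.Q149.QT
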